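import Pool.Agent.H8.G3.SGa

/-!
# Theorem (G), MP_c59857_nt, section 3b: row SG, the main statement
-/

set_option autoImplicit false

namespace Pool.Agent.H8.G3

open Finset Filter Pool.Agent.H6.N4D Pool.Agent.H93.EB Pool.Agent.H93.GS Pool.Agent.H56.G3

/-- row SG -/
theorem pf_SG (hRB : T_RB) (hWQ : T_WQ) (hSV : T_SV) (hSZ : T_SZ) (hSW : T_SW) (hSA1 : T_SA1)
    (hSA2 : T_SA2) (hSN : T_SN) : T_SG := by
  classical
  obtain ⟨W, hW1, hW⟩ := hWQ
  intro th c hth hth1 hc K κ ε hK hκ hε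
  obtain ⟨δ, hδ⟩ : ∃ δ : ℝ, δ = ε * κ / (4 * (K + 1)) := ⟨_, rfl⟩
  have hK0 : (0 : ℝ) < 4 * (K + 1) := by positivity
  have hδ0 : 0 < δ := by rw [hδ]; positivity
  obtain ⟨A, hA1, hA2⟩ : ∃ A : ℝ, 1 ≤ A ∧ 6 / A ≤ δ / 3 := by
    refine ⟨max 1 (18 / δ), le_max_left _ _, ?_⟩
    have h1 : 18 / δ ≤ max 1 (18 / δ) := le_max_right _ _
    have h2 : 0 < max 1 (18 / δ) := lt_of_lt_of_le one_pos (le_max_left _ _)
    rw [div_le_div_iff₀ h2 (by norm_num)]
    rw [div_le_iff₀ hδ0] at h1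
    linarith
  have hA0 : 0 < A := by linarith
  have hW0 : 0 < 4 + 13 * W := by linarith
  obtain ⟨η, hη0, hη1, hη2, hη3⟩ : ∃ η : ℝ, 0 < η ∧ η ≤ 1 / 2 ∧ (4 + 13 * W) * η ≤ δ / 3 ∧
      (A + 1) * η ≤ c / 24 := by
    refine ⟨min (1 / 2) (min (δ / 3 / (4 + 13 * W)) (c / 24 / (A + 1))), ?_, min_le_left _ _,
      ?_, ?_⟩
    · refine lt_min (by norm_num) (lt_min (by positivity) (by positivity))
    · have h1 : min (1 / 2) (min (δ / 3 / (4 + 13 * W)) (c / 24 / (A + 1))) ≤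
          δ / 3 / (4 + 13 * W) := (min_le_right _ _).trans (min_le_left _ _)
      rw [le_div_iff₀ hW0] at h1
      linarith
    · have h1 : min (1 / 2) (min (δ / 3 / (4 + 13 * W)) (c / 24 / (A + 1))) ≤
          c / 24 / (A + 1) := (min_le_right _ _).trans (min_le_right _ _)
      rw [le_div_iff₀ (by linarith)] at h1
      linarith
  obtain ⟨r, hr⟩ : ∃ r : ℕ, 8 / th ^ 2 * (1 / 2 : ℝ) ^ r ≤ min (δ / 3) (c / 24) := by
    have h1 : 0 < min (δ / 3) (c / 24) / (8 / th ^ 2) := by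
      have : 0 < min (δ / 3) (c / 24) := lt_min (by positivity) (by positivity)
      positivity
    obtain ⟨r, hr⟩ := exists_pow_lt_of_lt_one h1 (by norm_num : (1 / 2 : ℝ) < 1)
    refine ⟨r, ?_⟩
    rw [lt_div_iff₀ (by positivity)] at hr
    linarith
  have hr1 : 8 / th ^ 2 * (1 / 2 : ℝ) ^ r ≤ δ / 3 := hr.trans (min_le_left _ _)
  have hr2 : 8 / th ^ 2 * (1 / 2 : ℝ) ^ r ≤ c / 24 := hr.trans (min_le_right _ _)
  have hr0 : 0 ≤ 8 / th ^ 2 * (1 / 2 : ℝ) ^ r := by positivity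
  obtain ⟨ρ, hρ⟩ : ∃ ρ : ℝ, ρ = 8 / th ^ 2 * (1 / 2 : ℝ) ^ r := ⟨_, rfl⟩
  rw [← hρ] at hr0 hr1 hr2
  obtain ⟨jm, hjm⟩ := hSW K r (2 * (1 + A)) (c / 2) hK (by linarith) (by linarith)
  obtain ⟨Z, hZ⟩ : ∃ Z : ℝ, Z = 1 + A + 2 * A * ((jm + 1) * (2 * K + 2)) := ⟨_, rfl⟩
  have hZ0 : 0 < Z := by rw [hZ]; positivity
  obtain ⟨ε', hε'⟩ : ∃ ε' : ℝ, ε' = c / 2 / Z := ⟨_, rfl⟩
  have hε'0 : 0 < ε' := by rw [hε']; positivity
  have hε'1 : ε' * Z = c / 2 := by rw [hε']; field_simp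
  refine ⟨ε', r, hε'0, fun X₁ => ?_⟩
  obtain ⟨xv, hxv⟩ := hSV K η hK hη0
  obtain ⟨xa, hxa⟩ := hSA1 th hth hth1 η K r hη0 hK
  obtain ⟨xb, hxb⟩ := hSA2 th hth hth1 η K r hη0 hK
  obtain ⟨xn, hxn⟩ := hSN K r 1 hK
  obtain ⟨Y₁, hY₁⟩ := hjm (max X₁ (max (max xv xa) (max xb xn)))
  obtain ⟨Y₂, hY₂⟩ := SG_lev K jm
  refine ⟨max Y₁ Y₂, fun X a lam hX hlio ha hHm hc1 hc2 => ?_⟩
  obtain ⟨hX3, hlX, hlev⟩ := hY₂ X (le_trans (le_max_right _ _) hX)
  have hB1 : B1 lam := fun n => by rcases hlio.pm n with h | h <;> rw [h] <;> norm_num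
  -- the functions
  obtain ⟨E1, hE1⟩ : ∃ E1 : ℕ → ℝ, E1 = En th lam 1 (2 ^ kt X) := ⟨_, rfl⟩
  obtain ⟨E0, hE0⟩ : ∃ E0 : ℕ → ℝ, E0 = En th lam 1 (2 ^ a) := ⟨_, rfl⟩
  obtain ⟨m, hm⟩ : ∃ m : ℕ → ℕ → ℕ, m = fun j i => lv ((X : ℝ) ^ ((1 / 2 : ℝ) ^ j)) i := ⟨_, rfl⟩
  obtain ⟨G, hG⟩ : ∃ G : ℕ → ℕ → ℕ → ℝ, G = fun j i n => zs lam (m j i) n + ts th lam (m j i) n :=
    ⟨_, rfl⟩
  obtain ⟨T, hT⟩ : ∃ T : ℕ → ℝ, T = fun n => ∑ j ∈ range (jm + 1), ∑ i ∈ range (2 * K + 2),
    G j i n := ⟨_, rfl⟩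
  have hE1b : ∀ n, 0 ≤ E1 n ∧ E1 n ≤ 2 := by
    intro n
    obtain ⟨_, g1, g2, _⟩ := hRB th lam 1 (2 ^ kt X) n hth hB1 le_rfl Nat.one_le_two_pow
    rw [hE1]
    refine ⟨g1, g2.trans ?_⟩
    have h1 : (1 : ℝ) ≤ ((2 ^ kt X : ℕ) : ℝ) := by exact_mod_cast Nat.one_le_two_pow
    have h2 : ((1 : ℕ) : ℝ) / ((2 ^ kt X : ℕ) : ℝ) ≤ 1 := by
      rw [Nat.cast_one]
      exact div_le_one_of_le₀ h1 (Nat.cast_nonneg _)
    linarith only [h2]
  have hE0b : ∀ n, 0 ≤ E0 n := by
    intro n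
    obtain ⟨_, g1, g2, _⟩ := hRB th lam 1 (2 ^ a) n hth hB1 le_rfl Nat.one_le_two_pow
    rw [hE0]
    exact g1
  have hmb : ∀ j ≤ jm, ∀ i < 2 * K + 2, 1 ≤ m j i ∧ a ≤ m j i ∧
      (m j i : ℝ) ≤ Real.log X ^ (24 / 25 : ℝ) := by
    intro j hj i hi
    obtain ⟨g1, g2, g3⟩ := (hlev j hj).2 i hi
    rw [hm]
    refine ⟨g1, ?_, g3⟩
    have := ha.trans g2
    exact_mod_cast this
  have hGb : ∀ j ≤ jm, ∀ i < 2 * K + 2, (∀ v, 0 ≤ G j i v ∧ G j i v ≤ 13 * W) ∧
      lg X (G j i) ≤ 2 * ε' * Real.log X := by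
    intro j hj i hi
    obtain ⟨g1, g2, g3⟩ := hmb j hj i hi
    obtain ⟨z1, z2, z3⟩ := hSZ th W lam (m j i) hth hth1 hB1 g1 (hW _)
    refine ⟨fun v => ?_, ?_⟩
    · obtain ⟨y1, y2, y3, y4⟩ := z1 v
      rw [hG]
      exact ⟨add_nonneg y1 y3, by simp only; linarith only [y2, y4]⟩
    · obtain ⟨y1, y2⟩ := z3 X hX3
      obtain ⟨w1, w2⟩ := hHm (m j i) g2 g3
      have h1 : lg X (G j i) = lg X (zs lam (m j i)) + lg X (ts th lam (m j i)) := by
        rw [hG, ← SG_lg_add]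
      rw [h1, y2]
      linarith only [y1, w1, w2]
  have hT0 : ∀ n, 0 ≤ T n := by
    intro n
    rw [hT]
    refine Finset.sum_nonneg fun j hj => Finset.sum_nonneg fun i hi => ?_
    exact ((hGb j (by rw [mem_range] at hj; omega) i (mem_range.1 hi)).1 n).1
  have hTG : ∀ j ≤ jm, ∀ i < 2 * K + 2, ∀ n, G j i n ≤ T n := by
    intro j hj i hi n
    rw [hT]
    have h1 : G j i n ≤ ∑ i ∈ range (2 * K + 2), G j i n :=
      Finset.single_le_sum (f := fun i => G j i n)
        (fun i hi => ((hGb j hj i (mem_range.1 hi)).1 n).1) (mem_range.2 hi)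
    refine h1.trans ?_
    exact Finset.single_le_sum (f := fun j => ∑ i ∈ range (2 * K + 2), G j i n)
      (fun j hj => Finset.sum_nonneg fun i hi =>
        ((hGb j (by rw [mem_range] at hj; omega) i (mem_range.1 hi)).1 n).1)
      (mem_range.2 (by omega))
  have hlgT : lg X T ≤ (jm + 1) * (2 * K + 2) * (2 * ε' * Real.log X) := by
    rw [hT, SG_lg_sum]
    have h1 : ∀ j ∈ range (jm + 1), lg X (fun n => ∑ i ∈ range (2 * K + 2), G j i n) ≤
        (2 * K + 2) * (2 * ε' * Real.log X) := by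
      intro j hj
      rw [SG_lg_sum]
      refine (Finset.sum_le_card_nsmul (range (2 * K + 2)) _ (2 * ε' * Real.log X)
        fun i hi => (hGb j (by rw [mem_range] at hj; omega) i (mem_range.1 hi)).2).trans ?_
      rw [card_range, nsmul_eq_mul]
      push_cast
      exact le_rfl
    refine (Finset.sum_le_card_nsmul (range (jm + 1)) _ _ h1).trans ?_
    rw [card_range, nsmul_eq_mul]
    push_cast
    exact le_of_eq (by ring)
  -- the function `U`
  obtain ⟨U, hU⟩ : ∃ U : ℕ → ℝ, U = fun n => E1 n - A * (E0 n - E1 n) - A * T n := ⟨_, rfl⟩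
  have hUb : ∀ n, U n ≤ 2 * (1 + A) := by
    intro n
    have h1 := hE1b n
    have h2 := hE0b n
    have h3 := hT0 n
    have p1 := mul_nonneg hA0.le h2
    have p2 := mul_nonneg hA0.le h3
    have p3 := mul_le_mul_of_nonneg_left h1.2 hA0.le
    rw [hU]
    simp only
    linarith only [p1, p2, p3, h1.2]
  have hlgU : c / 2 * Real.log X ≤ lg X U := by
    have h1 : lg X U = lg X E1 - A * (lg X E0 - lg X E1) - A * lg X T := by
      rw [hU, SG_lg_sub, SG_lg_sub, SG_lg_mul, SG_lg_mul, SG_lg_sub]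
    have h2 : lg X E1 = te th lam X (kt X) * Real.log X := by
      unfold te
      rw [div_mul_cancel₀ _ hlX.ne', hE1]
    have h3 : lg X E0 = te th lam X a * Real.log X := by
      unfold te
      rw [div_mul_cancel₀ _ hlX.ne', hE0]
    rw [h1, h2, h3]
    have h4 : (te th lam X a - te th lam X (kt X)) * Real.log X ≤ ε' * Real.log X :=
      mul_le_mul_of_nonneg_right (by linarith only [hc2]) hlX.le
    have h5 : (c - ε') * Real.log X ≤ te th lam X (kt X) * Real.log X :=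
      mul_le_mul_of_nonneg_right (by linarith only [hc1, hc2]) hlX.le
    have h6 : A * lg X T ≤ A * ((jm + 1) * (2 * K + 2) * (2 * ε' * Real.log X)) :=
      mul_le_mul_of_nonneg_left hlgT hA0.le
    have h7 : A * (te th lam X a * Real.log X - te th lam X (kt X) * Real.log X) ≤
        A * (ε' * Real.log X) := by
      refine mul_le_mul_of_nonneg_left ?_ hA0.le
      linarith only [h4]
    have h8 : ε' * Z * Real.log X = c / 2 * Real.log X := by rw [hε'1]
    rw [hZ] at h8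
    linarith only [h5, h6, h7, h8]
  obtain ⟨S, j, hj, hSX, hS1, hS2, hS3⟩ := hY₁ X U (le_trans (le_max_left _ _) hX) hUb hlgU
  have hx1 : X₁ ≤ S.X := (le_max_left _ _).trans hS1
  have hx2 : max (max xv xa) (max xb xn) ≤ S.X := (le_max_right _ _).trans hS1
  have hxv' : xv ≤ S.X := ((le_max_left _ _).trans (le_max_left _ _)).trans hx2
  have hxa' : xa ≤ S.X := ((le_max_right _ _).trans (le_max_left _ _)).trans hx2
  have hxb' : xb ≤ S.X := ((le_max_left _ _).trans (le_max_right _ _)).trans hx2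
  have hxn' : xn ≤ S.X := ((le_max_right _ _).trans (le_max_right _ _)).trans hx2
  have hh : 0 < S.h := hS2.ok.hh
  have hL0 : 0 ≤ S.L := by
    unfold Par.L LL
    exact Real.rpow_nonneg (Real.log_nonneg hS2.ok.hX) _
  have hNh : 0 ≤ S.N * S.h := le_trans (by positivity) hS2.ok.hI1
  have hN : 0 ≤ S.N := nonneg_of_mul_nonneg_left hNh hh
  have haL : (a : ℝ) ≤ S.L := by
    refine ha.trans ?_
    have := (hlev j hj).1
    rw [← hSX] at this
    exact this
  have hlvm : ∀ i, lv S.X i = m j i := by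
    intro i
    rw [hm, hSX]
  -- sums over the stretch
  have hsU : sS S U = sS S E1 - A * (sS S E0 - sS S E1) - A * sS S T := by
    rw [hU, SG_sS_sub, SG_sS_sub, SG_sS_mul, SG_sS_mul, SG_sS_sub]
  have hone : sS S (fun _ => 1) ≤ (1 + η) * (S.N * S.h) :=
    (hxa S lam (kt X) 1 hS2 hxa' hB1 (Or.inl rfl)).2
  have hsE1 : sS S E1 ≤ 2 * ((1 + η) * (S.N * S.h)) := by
    have h1 : sS S E1 ≤ sS S (fun _ => 2 * 1) := SG_sS_mono S _ _ fun n => by
      have := (hE1b n).2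
      linarith only [this]
    rw [SG_sS_mul] at h1
    linarith only [h1, hone]
  have hsT0 : 0 ≤ sS S T := by
    unfold sS
    exact Finset.sum_nonneg fun n _ => div_nonneg (hT0 n) (Nat.cast_nonneg _)
  have hs01 : sS S E1 ≤ sS S E0 + η * (S.N * S.h) := by
    have := (hxb S lam (kt X) a 1 0 hS2 hxb' hB1 (Or.inl rfl) haL (by omega)).2.1
    rw [hE1, hE0]
    exact this
  rw [hsU] at hS3
  have hs3 : sS S E0 - sS S E1 ≤ 3 / A * (S.N * S.h) := by
    have p1 : 0 ≤ A * sS S T := mul_nonneg hA0.le hsT0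
    have p2 : 0 ≤ c * (S.N * S.h) := mul_nonneg hc.le hNh
    have p3 : η * (S.N * S.h) ≤ 1 / 2 * (S.N * S.h) := mul_le_mul_of_nonneg_right hη1 hNh
    have h1 : A * (sS S E0 - sS S E1) ≤ 3 * (S.N * S.h) := by
      linarith only [p1, p2, p3, hS3, hsE1]
    rw [div_mul_eq_mul_div, le_div_iff₀ hA0]
    linarith only [h1]
  have hsT : sS S T ≤ (3 / A + η) * (S.N * S.h) := by
    have p1 : A * sS S E1 ≤ A * (sS S E0 + η * (S.N * S.h)) :=
      mul_le_mul_of_nonneg_left hs01 hA0.le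
    have p2 : 0 ≤ c * (S.N * S.h) := mul_nonneg hc.le hNh
    have p3 : η * (S.N * S.h) ≤ 1 / 2 * (S.N * S.h) := mul_le_mul_of_nonneg_right hη1 hNh
    have h1 : A * sS S T ≤ 3 * (S.N * S.h) + A * (η * (S.N * S.h)) := by
      linarith only [p1, p2, p3, hS3, hsE1]
    have h2 : (3 / A + η) * (S.N * S.h) = (3 * (S.N * S.h) + A * (η * (S.N * S.h))) / A := by
      field_simp
    rw [h2, le_div_iff₀ hA0]
    linarith only [h1]
  have hsE1' : (c / 4 - A * η) * (S.N * S.h) ≤ sS S E1 := by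
    have h1 : 0 ≤ A * sS S T := mul_nonneg hA0.le hsT0
    have h2 : -(A * (η * (S.N * S.h))) ≤ A * (sS S E0 - sS S E1) := by
      rw [← mul_neg]
      exact mul_le_mul_of_nonneg_left (by linarith only [hs01]) hA0.le
    linarith only [h1, h2, hS3]
  refine ⟨S, hS2, hx1, ?_, ?_⟩
  · -- good windows
    have hgap : ∀ i < 2 * K + 2, ∀ w : ℕ, (w = 1 ∨ w = 2) →
        κ * S.cnt (fun t => κ < sl (w * Nt S t) (S.n t) (En th lam 1 (2 ^ lv S.X i)) -
          En th lam 1 (w * Nt S t) (S.n t)) ≤ (3 / A + ρ + 3 * η) * S.N := by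
      intro i hi w hw
      obtain ⟨g1, _, g3⟩ := hxb S lam (kt X) a w i hS2 hxb' hB1 hw haL hi
      have g4 := (hxa S lam (kt X) w hS2 hxa' hB1 hw).1
      rw [← hE0] at g1
      rw [← hE1, ← hρ] at g4
      have h1 := SG_markov S hN (fun t => sl (w * Nt S t) (S.n t) (En th lam 1 (2 ^ lv S.X i)) -
          En th lam 1 (w * Nt S t) (S.n t)) κ η (3 / A + ρ + 2 * η) hη0.le
        (fun t ht => by
          have := g3 t ht
          linarith only [this]) (by
          rw [Finset.sum_sub_distrib]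
          have h2 : S.h * (∑ t ∈ S.I, sl (w * Nt S t) (S.n t) (En th lam 1 (2 ^ lv S.X i)) -
              ∑ t ∈ S.I, En th lam 1 (w * Nt S t) (S.n t)) ≤
              S.h * ((3 / A + ρ + 2 * η) * S.N) := by
            rw [mul_sub]
            linarith only [g1, g4, hs3]
          exact le_of_mul_le_mul_left h2 hh)
      refine h1.trans (le_of_eq ?_)
      ring
    have htest : ∀ i < 2 * K + 2, ∀ w : ℕ, (w = 1 ∨ w = 2) →
        κ * S.cnt (fun t => κ < sl (w * Nt S t) (S.n t)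
          (fun v => zs lam (lv S.X i) v + ts th lam (lv S.X i) v)) ≤
          (3 / A + η + 13 * W * η) * S.N := by
      intro i hi w hw
      have hGe : (fun v => zs lam (lv S.X i) v + ts th lam (lv S.X i) v) = G j i := by
        rw [hG, hlvm i]
      rw [hGe]
      have hW13 : 0 < 13 * W := by linarith only [hW1]
      have hb := (hGb j hj i hi).1
      have g1 := hxv S r (kt X) w (fun v => 1 / (13 * W) * G j i v) hS2 hxv' hw (fun v => by
        rw [abs_of_nonneg (mul_nonneg (by positivity) (hb v).1), one_div, inv_mul_le_iff₀ hW13,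
          mul_one]
        exact (hb v).2)
      have g2 := (abs_le.1 g1).2
      rw [SG_sS_mul] at g2
      have h3 : ∑ t ∈ S.I, sl (w * Nt S t) (S.n t) (fun v => 1 / (13 * W) * G j i v) =
          1 / (13 * W) * ∑ t ∈ S.I, sl (w * Nt S t) (S.n t) (G j i) := by
        rw [Finset.mul_sum]
        exact Finset.sum_congr rfl fun t _ => SG_sl_mul _ _ _ _
      rw [h3] at g2
      have h4 : sS S (G j i) ≤ sS S T := SG_sS_mono S _ _ fun n => hTG j hj i hi n
      have h5 : S.h * ∑ t ∈ S.I, sl (w * Nt S t) (S.n t) (G j i) ≤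
          S.h * ((3 / A + η + 13 * W * η) * S.N) := by
        have h6 : S.h * ∑ t ∈ S.I, sl (w * Nt S t) (S.n t) (G j i) - sS S (G j i) ≤
            13 * W * (η * (S.N * S.h)) := by
          have h7 : 13 * W * (S.h * (1 / (13 * W) * ∑ t ∈ S.I, sl (w * Nt S t) (S.n t) (G j i)) -
              1 / (13 * W) * sS S (G j i)) ≤ 13 * W * (η * (S.N * S.h)) :=
            mul_le_mul_of_nonneg_left g2 hW13.le
          have h8 : 13 * W * (S.h * (1 / (13 * W) * ∑ t ∈ S.I, sl (w * Nt S t) (S.n t) (G j i)) -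
              1 / (13 * W) * sS S (G j i)) =
              S.h * ∑ t ∈ S.I, sl (w * Nt S t) (S.n t) (G j i) - sS S (G j i) := by
            field_simp
          rw [h8] at h7
          exact h7
        linarith only [h6, h4, hsT]
      have h6 : ∑ t ∈ S.I, sl (w * Nt S t) (S.n t) (G j i) ≤ (3 / A + η + 13 * W * η) * S.N :=
        le_of_mul_le_mul_left h5 hh
      have h7 := SG_markov S hN (fun t => sl (w * Nt S t) (S.n t) (G j i)) κ 0
        (3 / A + η + 13 * W * η) le_rfl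
        (fun t _ => by
          have := SG_sl_nonneg (w * Nt S t) (S.n t) (G j i) fun v => (hb v).1
          linarith only [this]) h6
      rw [add_zero] at h7
      exact h7
    have hall : S.cnt (fun t => ¬ Gt th κ lam S t) ≤
        S.cnt (fun t => ∃ i < 2 * K + 2,
          (κ < sl (1 * Nt S t) (S.n t) (En th lam 1 (2 ^ lv S.X i)) -
            En th lam 1 (1 * Nt S t) (S.n t) ∨
          κ < sl (1 * Nt S t) (S.n t)
            (fun v => zs lam (lv S.X i) v + ts th lam (lv S.X i) v)) ∨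
          (κ < sl (2 * Nt S t) (S.n t) (En th lam 1 (2 ^ lv S.X i)) -
            En th lam 1 (2 * Nt S t) (S.n t) ∨
          κ < sl (2 * Nt S t) (S.n t)
            (fun v => zs lam (lv S.X i) v + ts th lam (lv S.X i) v))) := by
      refine Par.cnt_mono fun t _ hG' => ?_
      by_contra hno
      apply hG'
      intro i hi w hw
      rw [hS2.hK] at hi
      obtain ⟨h1, h2⟩ := not_or.1 (fun h => hno ⟨i, hi, h⟩)
      obtain ⟨h3, h4⟩ := not_or.1 h1
      obtain ⟨h5, h6⟩ := not_or.1 h2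
      rcases hw with rfl | rfl
      · exact ⟨not_lt.1 h3, not_lt.1 h4⟩
      · exact ⟨not_lt.1 h5, not_lt.1 h6⟩
    have hper : ∀ i < 2 * K + 2, S.cnt (fun t =>
          (κ < sl (1 * Nt S t) (S.n t) (En th lam 1 (2 ^ lv S.X i)) -
            En th lam 1 (1 * Nt S t) (S.n t) ∨
          κ < sl (1 * Nt S t) (S.n t)
            (fun v => zs lam (lv S.X i) v + ts th lam (lv S.X i) v)) ∨
          (κ < sl (2 * Nt S t) (S.n t) (En th lam 1 (2 ^ lv S.X i)) -
            En th lam 1 (2 * Nt S t) (S.n t) ∨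
          κ < sl (2 * Nt S t) (S.n t)
            (fun v => zs lam (lv S.X i) v + ts th lam (lv S.X i) v))) ≤
        2 * (δ / κ) * S.N := by
      intro i hi
      have a1 := hgap i hi 1 (Or.inl rfl)
      have a2 := htest i hi 1 (Or.inl rfl)
      have a3 := hgap i hi 2 (Or.inr rfl)
      have a4 := htest i hi 2 (Or.inr rfl)
      have b1 := S.cnt_or (fun t => κ < sl (1 * Nt S t) (S.n t) (En th lam 1 (2 ^ lv S.X i)) -
            En th lam 1 (1 * Nt S t) (S.n t) ∨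
          κ < sl (1 * Nt S t) (S.n t)
            (fun v => zs lam (lv S.X i) v + ts th lam (lv S.X i) v))
        (fun t => κ < sl (2 * Nt S t) (S.n t) (En th lam 1 (2 ^ lv S.X i)) -
            En th lam 1 (2 * Nt S t) (S.n t) ∨
          κ < sl (2 * Nt S t) (S.n t)
            (fun v => zs lam (lv S.X i) v + ts th lam (lv S.X i) v))
      have b2 := S.cnt_or (fun t => κ < sl (1 * Nt S t) (S.n t) (En th lam 1 (2 ^ lv S.X i)) -
            En th lam 1 (1 * Nt S t) (S.n t))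
        (fun t => κ < sl (1 * Nt S t) (S.n t)
            (fun v => zs lam (lv S.X i) v + ts th lam (lv S.X i) v))
      have b3 := S.cnt_or (fun t => κ < sl (2 * Nt S t) (S.n t) (En th lam 1 (2 ^ lv S.X i)) -
            En th lam 1 (2 * Nt S t) (S.n t))
        (fun t => κ < sl (2 * Nt S t) (S.n t)
            (fun v => zs lam (lv S.X i) v + ts th lam (lv S.X i) v))
      refine (b1.trans (add_le_add b2 b3)).trans ?_
      have h1 : 6 / A + ρ + (4 + 13 * W) * η ≤ δ := by linarith only [hA2, hr1, hη2]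
      have h2 : 2 * ((6 / A + ρ + (4 + 13 * W) * η) * S.N) ≤ 2 * (δ * S.N) := by
        have := mul_le_mul_of_nonneg_right h1 hN
        linarith only [this]
      have h3 : 6 / A = 3 / A + 3 / A := by ring
      rw [show 2 * (δ / κ) * S.N = 2 * (δ * S.N) / κ by ring, le_div_iff₀ hκ]
      rw [h3] at h2
      linarith only [h2, a1, a2, a3, a4]
    refine hall.trans ((SG_union S (2 * K + 2) _ _ hper).trans (le_of_eq ?_))
    push_cast
    rw [hδ]
    field_simp
    ring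
  · -- large energy
    have g4 := (hxa S lam (kt X) 1 hS2 hxa' hB1 (Or.inl rfl)).1
    rw [← hE1, ← hρ] at g4
    simp only [one_mul] at g4
    refine SG_share S hN (fun t => En th lam 1 (Nt S t) (S.n t)) c hc (fun t ht => ?_) ?_
    · have h1 := ((hxn S (kt X) hS2 hxn').2.2.2.2.2.1 t ht).1
      have h2 : 1 ≤ Nt S t := by exact_mod_cast h1
      obtain ⟨_, _, g2, _⟩ := hRB th lam 1 (Nt S t) (S.n t) hth hB1 le_rfl h2
      refine g2.trans ?_
      have h3 : ((1 : ℕ) : ℝ) / (Nt S t : ℝ) ≤ 1 := by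
        rw [Nat.cast_one]
        exact div_le_one_of_le₀ h1 (Nat.cast_nonneg _)
      linarith only [h3]
    · have h1 : S.h * (c / 6 * S.N) ≤ S.h * ∑ t ∈ S.I, En th lam 1 (Nt S t) (S.n t) := by
        have h2 : (c / 4 - A * η - ρ - η) * (S.N * S.h) ≤
            S.h * ∑ t ∈ S.I, En th lam 1 (Nt S t) (S.n t) := by
          linarith only [g4, hsE1']
        have h3 : c / 6 ≤ c / 4 - A * η - ρ - η := by linarith only [hr2, hη3]
        have h4 := mul_le_mul_of_nonneg_right h3 hNh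
        linarith only [h2, h4]
      exact le_of_mul_le_mul_left h1 hh

end Pool.Agent.H8.G3
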