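import Pool.Agent.H56.G3.TS

/-!
# Theorem (G), MP_c59857_nt, section 3b: row SG, levels and counting
-/

set_option autoImplicit false

namespace Pool.Agent.H8.G3

open Finset Filter Pool.Agent.H6.N4D Pool.Agent.H93.EB Pool.Agent.H93.GS Pool.Agent.H56.G3

/-! ### the levels -/

lemma SG_lev (K jm : ℕ) : ∃ X₀ : ℕ, ∀ X : ℕ, X₀ ≤ X → 3 ≤ X ∧ 0 < Real.log X ∧ ∀ j ≤ jm,
    Real.log X ^ (1 / 2 : ℝ) ≤ LL ((X : ℝ) ^ ((1 / 2 : ℝ) ^ j)) ∧
    ∀ i < 2 * K + 2, 1 ≤ lv ((X : ℝ) ^ ((1 / 2 : ℝ) ^ j)) i ∧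
      Real.log X ^ (1 / 2 : ℝ) ≤ lv ((X : ℝ) ^ ((1 / 2 : ℝ) ^ j)) i ∧
      (lv ((X : ℝ) ^ ((1 / 2 : ℝ) ^ j)) i : ℝ) ≤ Real.log X ^ (24 / 25 : ℝ) := by
  set b : ℝ := (1 / 2 : ℝ) ^ jm with hb
  have hb0 : 0 < b := by positivity
  have hlog : Tendsto (fun X : ℕ => Real.log (X : ℝ)) atTop atTop :=
    Real.tendsto_log_atTop.comp tendsto_natCast_atTop_atTop
  have e1 := hlog.eventually_ge_atTop 1
  have e2 := ((tendsto_rpow_atTop (by norm_num : (0 : ℝ) < 9 / 20)).comp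
    hlog).eventually_ge_atTop (2 / b ^ (19 / 20 : ℝ))
  have e3 := ((tendsto_rpow_atTop (by norm_num : (0 : ℝ) < 1 / 100)).comp
    hlog).eventually_ge_atTop (800 * 2 ^ (2 * K + 1))
  obtain ⟨X₀, hX₀⟩ := eventually_atTop.1 ((e1.and e2).and (e3.and (eventually_ge_atTop 3)))
  refine ⟨X₀, fun X hX => ?_⟩
  obtain ⟨⟨g1, g2⟩, g3, g4⟩ := hX₀ X hX
  simp only [Function.comp_apply] at g2 g3
  set l : ℝ := Real.log (X : ℝ) with hl
  have hl0 : 0 < l := by linarith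
  have hX0 : (0 : ℝ) < X := by
    have : (3 : ℝ) ≤ X := by exact_mod_cast g4
    linarith
  refine ⟨g4, hl0, fun j hj => ?_⟩
  have hx : Real.log ((X : ℝ) ^ ((1 / 2 : ℝ) ^ j)) = (1 / 2 : ℝ) ^ j * l := by
    rw [Real.log_rpow hX0]
  have hbj : b ≤ (1 / 2 : ℝ) ^ j := by
    rw [hb]
    exact pow_le_pow_of_le_one (by norm_num) (by norm_num) hj
  have hj1 : (1 / 2 : ℝ) ^ j ≤ 1 := pow_le_one₀ (by norm_num) (by norm_num)
  have hsq : 1 ≤ l ^ (1 / 2 : ℝ) := Real.one_le_rpow g1 (by norm_num)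
  set Lj : ℝ := LL ((X : ℝ) ^ ((1 / 2 : ℝ) ^ j)) with hLj
  have hLj' : Lj = ((1 / 2 : ℝ) ^ j * l) ^ (19 / 20 : ℝ) := by
    rw [hLj]
    unfold LL
    rw [hx]
  have hlow : 2 * l ^ (1 / 2 : ℝ) ≤ Lj := by
    have h1 : (b * l) ^ (19 / 20 : ℝ) ≤ Lj := by
      rw [hLj']
      exact Real.rpow_le_rpow (by positivity) (mul_le_mul_of_nonneg_right hbj hl0.le)
        (by norm_num)
    have h2 : (b * l) ^ (19 / 20 : ℝ) = b ^ (19 / 20 : ℝ) * l ^ (9 / 20 : ℝ) * l ^ (1 / 2 : ℝ) := by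
      rw [Real.mul_rpow hb0.le hl0.le, mul_assoc, ← Real.rpow_add hl0]
      norm_num
    have h3 : 2 ≤ b ^ (19 / 20 : ℝ) * l ^ (9 / 20 : ℝ) := by
      have h4 : 0 < b ^ (19 / 20 : ℝ) := by positivity
      rw [div_le_iff₀ h4] at g2
      linarith only [g2]
    rw [h2] at h1
    have h5 := mul_le_mul_of_nonneg_right h3 (by linarith only [hsq] : 0 ≤ l ^ (1 / 2 : ℝ))
    linarith only [h1, h5]
  have hup : Lj ≤ l ^ (19 / 20 : ℝ) := by
    rw [hLj']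
    exact Real.rpow_le_rpow (by positivity) (mul_le_of_le_one_left hl0.le hj1) (by norm_num)
  refine ⟨by linarith only [hlow, hsq], fun i hi => ?_⟩
  have hlog2 : (1 / 2 : ℝ) ≤ Real.log 2 := by
    have := Real.log_two_gt_d9
    linarith only [this]
  have hlog2' : Real.log 2 ≤ 1 := by
    have := Real.log_two_lt_d9
    linarith only [this]
  have hL0 : 2 ≤ Lj := by linarith only [hlow, hsq]
  have hL00 : 0 ≤ Lj := by linarith only [hL0]
  have hl20 : 0 < Real.log 2 := by linarith only [hlog2]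
  have hfl1 : Lj - 1 ≤ (⌊Lj / Real.log 2⌋₊ : ℝ) := by
    have h1 := Nat.lt_floor_add_one (Lj / Real.log 2)
    have h2 : Lj ≤ Lj / Real.log 2 := by
      rw [le_div_iff₀ hl20]
      exact mul_le_of_le_one_right hL00 hlog2'
    linarith only [h1, h2]
  have hfl2 : (⌊Lj / Real.log 2⌋₊ : ℝ) ≤ 2 * Lj := by
    refine (Nat.floor_le (div_nonneg hL00 hl20.le)).trans ?_
    rw [div_le_iff₀ hl20]
    have h1 := mul_le_mul_of_nonneg_left hlog2 (by linarith only [hL00] : 0 ≤ 2 * Lj)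
    linarith only [h1]
  have hlv : (lv ((X : ℝ) ^ ((1 / 2 : ℝ) ^ j)) i : ℝ) = 400 * (⌊Lj / Real.log 2⌋₊ : ℝ) * 2 ^ i := by
    unfold lv
    push_cast
    rfl
  have hi1 : (1 : ℝ) ≤ 2 ^ i := one_le_pow₀ (by norm_num)
  have hi2 : (2 : ℝ) ^ i ≤ 2 ^ (2 * K + 1) := pow_le_pow_right₀ (by norm_num) (by omega)
  have hA : l ^ (1 / 2 : ℝ) ≤ (lv ((X : ℝ) ^ ((1 / 2 : ℝ) ^ j)) i : ℝ) := by
    rw [hlv]
    have h1 : l ^ (1 / 2 : ℝ) ≤ 400 * (⌊Lj / Real.log 2⌋₊ : ℝ) := by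
      linarith only [hfl1, hlow, hsq]
    exact h1.trans (le_mul_of_one_le_right (by positivity) hi1)
  refine ⟨?_, hA, ?_⟩
  · have : (1 : ℝ) ≤ (lv ((X : ℝ) ^ ((1 / 2 : ℝ) ^ j)) i : ℝ) := hsq.trans hA
    exact_mod_cast this
  · rw [hlv]
    have h1 : 400 * (⌊Lj / Real.log 2⌋₊ : ℝ) * 2 ^ i ≤ 800 * l ^ (19 / 20 : ℝ) * 2 ^ (2 * K + 1) := by
      refine mul_le_mul ?_ hi2 (by positivity) (by positivity)
      linarith only [hfl2, hup]
    have h2 : l ^ (24 / 25 : ℝ) = l ^ (1 / 100 : ℝ) * l ^ (19 / 20 : ℝ) := by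
      rw [← Real.rpow_add hl0]
      norm_num
    rw [h2]
    have h3 : 0 < l ^ (19 / 20 : ℝ) := by positivity
    have h4 := mul_le_mul_of_nonneg_right g3 h3.le
    linarith only [h1, h4]

/-! ### counting -/

lemma SG_markov (S : Par) (hN : 0 ≤ S.N) (f : ℤ → ℝ) (κ η B : ℝ) (hη : 0 ≤ η)
    (h1 : ∀ t ∈ S.I, -η ≤ f t) (h2 : ∑ t ∈ S.I, f t ≤ B * S.N) :
    κ * S.cnt (fun t => κ < f t) ≤ (B + η) * S.N := by
  classical
  have e1 : κ * S.cnt (fun t => κ < f t) = ∑ t ∈ S.fl (fun t => κ < f t), κ := by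
    rw [Finset.sum_const, nsmul_eq_mul]
    unfold Par.cnt
    ring
  have e2 : ∑ t ∈ S.fl (fun t => κ < f t), κ ≤ ∑ t ∈ S.fl (fun t => κ < f t), (f t + η) := by
    refine Finset.sum_le_sum fun t ht => ?_
    have := (Par.mem_fl.1 ht).2
    linarith
  have e3 : ∑ t ∈ S.fl (fun t => κ < f t), (f t + η) ≤ ∑ t ∈ S.I, (f t + η) := by
    refine Finset.sum_le_sum_of_subset_of_nonneg (fun t ht => (Par.mem_fl.1 ht).1) ?_
    intro t ht _
    have := h1 t ht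
    linarith
  have e4 : ∑ t ∈ S.I, (f t + η) = ∑ t ∈ S.I, f t + η * S.N := by
    rw [Finset.sum_add_distrib, Finset.sum_const, nsmul_eq_mul, Par.card_I hN]
    ring
  rw [e1]
  linarith

lemma SG_union (S : Par) (m : ℕ) (E : ℕ → ℤ → Prop) (B : ℝ) (h : ∀ i < m, S.cnt (E i) ≤ B) :
    S.cnt (fun t => ∃ i < m, E i t) ≤ m * B := by
  induction m with
  | zero =>
    have : S.cnt (fun t => ∃ i < 0, E i t) = 0 := by
      unfold Par.cnt
      rw [Nat.cast_eq_zero, Finset.card_eq_zero]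
      rw [Finset.eq_empty_iff_forall_notMem]
      intro t ht
      obtain ⟨i, hi, _⟩ := (Par.mem_fl.1 ht).2
      omega
    rw [this]
    simp
  | succ m ih =>
    have h1 : S.cnt (fun t => ∃ i < m + 1, E i t) ≤
        S.cnt (fun t => ∃ i < m, E i t) + S.cnt (E m) := by
      refine Par.cnt_le_add fun t _ => ?_
      rintro ⟨i, hi, hE⟩
      rcases Nat.lt_succ_iff_lt_or_eq.1 hi with h | h
      · exact Or.inl ⟨i, h, hE⟩
      · exact Or.inr (h ▸ hE)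
    have h2 := ih fun i hi => h i (by omega)
    have h3 := h m (by omega)
    push_cast
    linarith

lemma SG_share (S : Par) (hN : 0 ≤ S.N) (f : ℤ → ℝ) (c : ℝ) (hc : 0 < c)
    (h1 : ∀ t ∈ S.I, f t ≤ 2) (h2 : c / 6 * S.N ≤ ∑ t ∈ S.I, f t) :
    c / 20 * S.N ≤ S.cnt (fun t => c / 20 ≤ f t) := by
  classical
  have e1 : ∑ t ∈ S.I, f t ≤ ∑ t ∈ S.I, ((if c / 20 ≤ f t then 2 else 0) + c / 20) := by
    refine Finset.sum_le_sum fun t ht => ?_
    have := h1 t ht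
    split_ifs with h
    · linarith
    · push Not at h
      linarith
  have e2 : ∑ t ∈ S.I, ((if c / 20 ≤ f t then (2 : ℝ) else 0) + c / 20) =
      2 * S.cnt (fun t => c / 20 ≤ f t) + c / 20 * S.N := by
    rw [Finset.sum_add_distrib, Finset.sum_const, nsmul_eq_mul, Par.card_I hN,
      ← Finset.sum_filter, Finset.sum_const, nsmul_eq_mul]
    have e3 : S.fl (fun t => c / 20 ≤ f t) = S.I.filter (fun t => c / 20 ≤ f t) := by
      ext t
      rw [Par.mem_fl, Finset.mem_filter]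
    unfold Par.cnt
    rw [e3]
    ring
  rw [e2] at e1
  have : 0 ≤ c * S.N := by positivity
  linarith

/-! ### linearity -/

lemma SG_lg_sub (X : ℕ) (f g : ℕ → ℝ) : lg X (fun n => f n - g n) = lg X f - lg X g := by
  unfold lg
  rw [← Finset.sum_sub_distrib]
  refine Finset.sum_congr rfl fun n _ => ?_
  ring

lemma SG_lg_add (X : ℕ) (f g : ℕ → ℝ) : lg X (fun n => f n + g n) = lg X f + lg X g := by
  unfold lg
  rw [← Finset.sum_add_distrib]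
  refine Finset.sum_congr rfl fun n _ => ?_
  ring

lemma SG_lg_mul (X : ℕ) (c : ℝ) (f : ℕ → ℝ) : lg X (fun n => c * f n) = c * lg X f := by
  unfold lg
  rw [Finset.mul_sum]
  refine Finset.sum_congr rfl fun n _ => ?_
  ring

lemma SG_lg_sum {ι : Type} (X : ℕ) (s : Finset ι) (f : ι → ℕ → ℝ) :
    lg X (fun n => ∑ i ∈ s, f i n) = ∑ i ∈ s, lg X (f i) := by
  unfold lg
  rw [Finset.sum_comm]
  refine Finset.sum_congr rfl fun n _ => ?_
  rw [Finset.sum_div]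

lemma SG_sS_sub (S : Par) (f g : ℕ → ℝ) : sS S (fun n => f n - g n) = sS S f - sS S g := by
  unfold sS
  rw [← Finset.sum_sub_distrib]
  refine Finset.sum_congr rfl fun n _ => ?_
  ring

lemma SG_sS_mul (S : Par) (c : ℝ) (f : ℕ → ℝ) : sS S (fun n => c * f n) = c * sS S f := by
  unfold sS
  rw [Finset.mul_sum]
  refine Finset.sum_congr rfl fun n _ => ?_
  ring

lemma SG_sS_mono (S : Par) (f g : ℕ → ℝ) (h : ∀ n, f n ≤ g n) : sS S f ≤ sS S g := by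
  unfold sS
  refine Finset.sum_le_sum fun n _ => ?_
  exact div_le_div_of_nonneg_right (h n) (Nat.cast_nonneg _)

lemma SG_sl_mul (N n : ℕ) (c : ℝ) (f : ℕ → ℝ) : sl N n (fun v => c * f v) = c * sl N n f := by
  unfold sl
  rw [← Finset.mul_sum]
  ring

lemma SG_sl_nonneg (N n : ℕ) (f : ℕ → ℝ) (h : ∀ v, 0 ≤ f v) : 0 ≤ sl N n f := by
  unfold sl
  exact div_nonneg (Finset.sum_nonneg fun _ _ => h _) (Nat.cast_nonneg _)

end Pool.Agent.H8.G3
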